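import Pool.Agent.Helper162.Arc.PA
import Pool.Agent.N490.HDImage

set_option autoImplicit false

open Set Topology

namespace Pool.Agent.Results.MP_3d59a4_gt.NoHDSubcontinuum

/-- A subcontinuum of a space: a nonempty compact connected subset. -/
def IsSubcontinuum {Z : Type} [TopologicalSpace Z] (K : Set Z) : Prop :=
  IsCompact K ∧ IsConnected K

/-- `K` is decomposable: it is the union of two subcontinua, both different from `K`. -/
def IsDecomposable {Z : Type} [TopologicalSpace Z] (K : Set Z) : Prop :=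
  ∃ A B : Set Z, IsSubcontinuum A ∧ IsSubcontinuum B ∧ A ≠ K ∧ B ≠ K ∧ A ∪ B = K

/-- Every nondegenerate subcontinuum of `K` is decomposable. -/
def HereditarilyDecomposable {Z : Type} [TopologicalSpace Z] (K : Set Z) : Prop :=
  ∀ L : Set Z, L ⊆ K → IsSubcontinuum L → L.Nontrivial → IsDecomposable L

/-- `Z` is lambda-connected: any two points lie in a hereditarily decomposable subcontinuum. -/
def LambdaConnected (Z : Type) [TopologicalSpace Z] : Prop :=
  ∀ p q : Z, ∃ K : Set Z, IsSubcontinuum K ∧ HereditarilyDecomposable K ∧ p ∈ K ∧ q ∈ K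

/-- the image of a hereditarily decomposable continuum in a space all of whose subcontinua are
indecomposable is a point -/
theorem image_subsingleton {Z X : Type} [TopologicalSpace Z] [CompactSpace Z] [T2Space Z]
    [TopologicalSpace X] [T2Space X] (hX : ∀ C : Set X, IsSubcontinuum C → ¬ IsDecomposable C)
    {f : Z → X} (hf : Continuous f) {K : Set Z} (hK : IsSubcontinuum K)
    (hKd : HereditarilyDecomposable K) : (f '' K).Subsingleton := by
  by_contra hns
  rw [not_subsingleton_iff] at hns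
  obtain ⟨L, hLK, hL, hLc, hLi, hLmin⟩ :=
    Pool.Agent.N490.HD.exists_minimal hf hK.1.isClosed hK.2
  have hLn : L.Nontrivial := by
    rw [← hLi] at hns
    obtain ⟨_, ⟨a, ha, rfl⟩, _, ⟨b, hb, rfl⟩, hab⟩ := hns
    exact ⟨a, ha, b, hb, fun e => hab (congrArg f e)⟩
  obtain ⟨A, B, hA, hB, hAL, hBL, hAB⟩ := hKd L hLK ⟨hL.isCompact, hLc⟩ hLn
  have hAsub : A ⊆ L := hAB ▸ subset_union_left
  have hBsub : B ⊆ L := hAB ▸ subset_union_right
  refine hX (f '' K) ⟨hK.1.image hf, hK.2.image f hf.continuousOn⟩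
    ⟨f '' A, f '' B, ⟨hA.1.image hf, hA.2.image f hf.continuousOn⟩,
      ⟨hB.1.image hf, hB.2.image f hf.continuousOn⟩, ?_, ?_, ?_⟩
  · intro h
    exact hAL (hLmin A hAsub hA.1.isClosed hA.2 h)
  · intro h
    exact hBL (hLmin B hBsub hB.1.isClosed hB.2 h)
  · rw [← image_union, hAB, hLi]

/-- There are nondegenerate metric continua `X` and `Y` such that no two distinct points of the
product `X × Y` lie in a hereditarily decomposable subcontinuum of `X × Y`. In particular
`X × Y` is not lambda-connected. -/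
theorem result :
    ∃ (X Y : Type) (_ : MetricSpace X) (_ : MetricSpace Y),
      CompactSpace X ∧ ConnectedSpace X ∧ Nontrivial X ∧
      CompactSpace Y ∧ ConnectedSpace Y ∧ Nontrivial Y ∧
      (∀ p q : X × Y, p ≠ q →
        ¬ ∃ K : Set (X × Y), IsSubcontinuum K ∧ HereditarilyDecomposable K ∧ p ∈ K ∧ q ∈ K) ∧
      ¬ LambdaConnected (X × Y) := by
  have hPA : ∀ C : Set Pool.Agent.Helper162.Arc.PA, IsSubcontinuum C → ¬ IsDecomposable C := by
    rintro K hK ⟨A, B, hA, hB, hAK, hBK, hAB⟩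
    exact Pool.Agent.Helper162.Arc.pa_hi hK ⟨A, B, hA, hB, hAB ▸ subset_union_left,
      hAB ▸ subset_union_right, hAK, hBK, hAB⟩
  have key : ∀ p q : Pool.Agent.Helper162.Arc.PA × Pool.Agent.Helper162.Arc.PA, p ≠ q →
      ¬ ∃ K : Set (Pool.Agent.Helper162.Arc.PA × Pool.Agent.Helper162.Arc.PA),
        IsSubcontinuum K ∧ HereditarilyDecomposable K ∧ p ∈ K ∧ q ∈ K := by
    rintro p q hpq ⟨K, hK, hKd, hp, hq⟩
    apply hpq
    have h1 := image_subsingleton hPA continuous_fst hK hKd ⟨p, hp, rfl⟩ ⟨q, hq, rfl⟩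
    have h2 := image_subsingleton hPA continuous_snd hK hKd ⟨p, hp, rfl⟩ ⟨q, hq, rfl⟩
    exact Prod.ext h1 h2
  refine ⟨Pool.Agent.Helper162.Arc.PA, Pool.Agent.Helper162.Arc.PA,
    TopologicalSpace.metrizableSpaceMetric Pool.Agent.Helper162.Arc.PA,
    TopologicalSpace.metrizableSpaceMetric Pool.Agent.Helper162.Arc.PA,
    inferInstance, inferInstance, inferInstance, inferInstance, inferInstance, inferInstance,
    key, ?_⟩
  intro h
  obtain ⟨a, b, hab⟩ := exists_pair_ne Pool.Agent.Helper162.Arc.PA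
  obtain ⟨K, hK⟩ := h (a, a) (b, b)
  exact key (a, a) (b, b) (fun e => hab (congrArg Prod.fst e)) ⟨K, hK⟩

end Pool.Agent.Results.MP_3d59a4_gt.NoHDSubcontinuum
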